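import Pool.Agent.MP_ecfd11_lc.H65S.Defs

/-!
Images of the next level.
-/

namespace Pool.Agent.MP_ecfd11_lc.H46N

open Pool.Agent.MP_ecfd11_lc.H3U

universe u

open ZFSet

/-- Some `f ∈ HOD` maps `Lev a × n` onto `X`, where `n` is an ordinal and at most `k` cardinals of
HOD lie strictly between `a` and `n`. -/
def FewL (k : Cardinal.{u}) (a X : ZFSet.{u}) : Prop :=
  ∃ n f : ZFSet.{u}, n.IsOrdinal ∧ HOD Set.univ f ∧ IsFunc (prod (Lev a) n) X f ∧
    (∀ x ∈ X, ∃ r, pair r x ∈ f) ∧ card (n.sep fun z => a ∈ z ∧ H46.HODCard z) ≤ k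

end Pool.Agent.MP_ecfd11_lc.H46N
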