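import Pool.Agent.MP_ecfd11_lc.H65S.Main
import Pool.Agent.MP_ecfd11_lc.H46N.Defs

/-!
Closing a set under pairs inside HOD.
-/

set_option synthInstance.maxSize 4000

namespace Pool.Agent.MP_ecfd11_lc.H46N

open Pool.Agent.MP_ecfd11_lc.H20 Pool.Agent.MP_ecfd11_lc.H13X Pool.Agent.MP_ecfd11_lc.H3U
  Pool.Agent.MP_ecfd11_lc.H3E Pool.Agent.MP_ecfd11_lc.H65S

universe u

open ZFSet Cardinal Function Filter Classical

theorem close' {t n f Q : ZFSet.{u}} (ht : Unc t) (ho : om ⊆ Q)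
    (q1 : Q ∈ vonNeumann t.rank) (hn : n.IsOrdinal) (f0 : HOD Set.univ f) (f1 : IsFunc n Q f)
    (f2 : ∀ x ∈ Q, ∃ r, pair r x ∈ f) :
    ∃ P ∈ vonNeumann t.rank, Q ⊆ P ∧ (∀ y ∈ P, ∀ z ∈ P, pair y z ∈ P) ∧
      ∃ F, HOD Set.univ F ∧ IsFunc n P F ∧ ∀ x ∈ P, ∃ r, pair r x ∈ F := by
  have tf := hod_tm f0
  have tn : Tm Set.univ On (fun _ => n) := Tm.ofOrd hn
  have s0 : ∀ z ∈ Q, ∃ i ∈ n, app f i = z := fun z hz => by
    obtain ⟨r, hr⟩ := f2 z hz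
    exact ⟨r, (pair_mem_prod.1 (f1.1 hr)).1, f1.app_eq hr⟩
  have q0 : HOD Set.univ Q := by
    have e : Q = img (app f) n := ZFSet.ext fun z => ⟨fun hz => mem_img.2 (s0 z hz), fun hz => by
      obtain ⟨r, hr, rfl⟩ := mem_img.1 hz
      exact f1.app_mem' hr⟩
    rw [e]
    exact hod_img (hod_ord hn).self _ fun i hi => hod_app f0 f1 hi
  have tQ := hod_tm q0
  have hon : om ⊆ n := (om_subset_iff hn).2
    ((card_om.ge.trans (card_mono ho)).trans (card_le_of_surj (app f) s0))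
  obtain ⟨p, p0, p1, p2⟩ := DInj.pairing (C := Set.univ) hn hon
  have := Tm.one (C := Set.univ) (A := On) p
  obtain ⟨w, w0, w1⟩ : ∃ w : ZFSet.{u} → ZFSet.{u}, Tm Set.univ On (fun v => w (v 0)) ∧
      ∀ z ∈ Q, w z ∈ n ∧ app f (w z) = z :=
    ⟨fun x => leastBy n (fun i => i) fun i => app f i = x,
      Tm.leastBy n (fun i => i) fun x i => app f i = x,
      fun x hx => leastBy_id (p := fun i => app f i = x) hn (s0 x hx)⟩
  have := Tm.one (C := Set.univ) (A := On) w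
  have n0 : ∀ m, nat m ∈ n := fun m =>
    hon (Ordinal.toZFSet_mem_toZFSet_iff.2 (Ordinal.natCast_lt_omega0 m))
  let F : ZFSet.{u} → ZFSet.{u} → ZFSet.{u} := fun t g =>
    if t ∈ Q then p (pair (nat 0) (w t)) else
      if t = pair (fst t) (snd t) ∧ app g (fst t) ∈ n ∧ app g (snd t) ∈ n then
        p (pair (nat 1) (p (pair (app g (fst t)) (app g (snd t))))) else n
  obtain ⟨e, he⟩ := exists_rec tc tc_wf F
  have h1 : ∀ t ∈ Q, e t = p (pair (nat 0) (w t)) := fun t ht => by rw [he]; exact if_pos ht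
  have h2 : ∀ x y, pair x y ∉ Q → e x ∈ n → e y ∈ n →
      e (pair x y) = p (pair (nat 1) (p (pair (e x) (e y)))) := fun x y h hx hy => by
    rw [he]
    simp only [F, fst_pair, snd_pair, app_gr (fst_mem_tc _ _), app_gr (snd_mem_tc _ _)]
    rw [if_neg h, if_pos ⟨trivial, hx, hy⟩]
  have h3 : ∀ t, e t ∈ n → t ∈ Q ∨ ∃ x y, t = pair x y ∧ t ∉ Q ∧ e x ∈ n ∧ e y ∈ n :=
    fun t ht => by
      by_cases h : t ∈ Q
      · exact Or.inl h
      · rw [he] at ht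
        simp only [F, h, if_false] at ht
        split_ifs at ht with h'
        · obtain ⟨h4, h5, h6⟩ := h'
          rw [h4, fst_pair, app_gr (fst_mem_tc _ _)] at h5
          rw [h4, snd_pair, app_gr (snd_mem_tc _ _)] at h6
          exact Or.inr ⟨_, _, h4, h, h5, h6⟩
        · exact absurd ht (mem_irrefl n)
  have r1 : ∀ x ∈ n, ∀ y ∈ n, p (pair x y) ∈ n := fun x hx y hy =>
    p1 _ (pair_mem_prod.2 ⟨hx, hy⟩)
  have r2 : ∀ x ∈ n, ∀ y ∈ n, ∀ x' ∈ n, ∀ y' ∈ n, p (pair x y) = p (pair x' y') →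
      x = x' ∧ y = y' := fun x hx y hy x' hx' y' hy' e =>
    pair_inj.1 (p2 _ (pair_mem_prod.2 ⟨hx, hy⟩) _ (pair_mem_prod.2 ⟨hx', hy'⟩) e)
  have e0 : Tm Set.univ On (fun v => e (v 0)) :=
    Tm.recursion (fun _ x => tc x) (fun _ => F) (fun _ => e)
      (hF := by simp only [F]; infer_instance) (fun _ _ => tc_wf) fun _ _ x _ => he x
  have := Tm.one (C := Set.univ) (A := On) e
  have e1 : ∀ z ∈ Q, e z ∈ n := fun z hz => h1 z hz ▸ r1 _ (n0 0) _ (w1 z hz).1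
  have e2 : ∀ s t, e s ∈ n → e s = e t → s = t := fun s => by
    induction s using tc_wf.induction with
    | _ s ih =>
      intro t hs e'
      rcases h3 s hs with h4 | ⟨x, y, rfl, a0, a1, a2⟩ <;>
        rcases h3 t (e' ▸ hs) with h5 | ⟨x', y', rfl, a5, a3, a4⟩
      · rw [h1 s h4, h1 t h5] at e'
        rw [← (w1 s h4).2, (r2 _ (n0 0) _ (w1 s h4).1 _ (n0 0) _ (w1 t h5).1 e').2, (w1 t h5).2]
      · rw [h1 s h4, h2 _ _ a5 a3 a4] at e'
        exact absurd (nat_inj.1 (r2 _ (n0 0) _ (w1 s h4).1 _ (n0 1) _ (r1 _ a3 _ a4) e').1)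
          (by simp)
      · rw [h1 t h5, h2 _ _ a0 a1 a2] at e'
        exact absurd (nat_inj.1 (r2 _ (n0 1) _ (r1 _ a1 _ a2) _ (n0 0) _ (w1 t h5).1 e').1)
          (by simp)
      · rw [h2 _ _ a0 a1 a2, h2 _ _ a5 a3 a4] at e'
        obtain ⟨e1, e2⟩ := r2 _ a1 _ a2 _ a3 _ a4
          (r2 _ (n0 1) _ (r1 _ a1 _ a2) _ (n0 1) _ (r1 _ a3 _ a4) e').2
        rw [ih x (fst_mem_tc _ _) x' a1 e1, ih y (snd_mem_tc _ _) y' a2 e2]
  have e3 : ∀ s, e s ∈ n → HOD Set.univ s := fun s => by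
    induction s using tc_wf.induction with
    | _ s ih =>
      intro hs
      rcases h3 s hs with h4 | ⟨x, y, rfl, -, a1, a2⟩
      exacts [q0.mem h4, hod_pair (ih x (fst_mem_tc _ _) a1) (ih y (snd_mem_tc _ _) a2)]
  obtain ⟨g, g1, g2, g3⟩ := ht.exists_closed (fun x => insert x x)
    (fun x hx => ⟨ht.succ_mem hx, mem_insert _ _⟩) (x0 := (rank Q).toZFSet)
    (((isOrdinal_toZFSet _).rank_lt_iff_mem ht.1).1
      (by rw [Ordinal.rank_toZFSet]; exact mem_vonNeumann.1 q1))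
  have go := ht.1.mem g1
  have tg : Tm Set.univ On (fun _ => g) := Tm.ofOrd go
  obtain ⟨P, eP⟩ : ∃ P, P = (vC Set.univ g).sep fun z => e z ∈ n := ⟨_, rfl⟩
  have mP : ∀ z, z ∈ P ↔ z ∈ vC Set.univ g ∧ e z ∈ n := fun z => eP ▸ mem_sep
  have tP : Tm Set.univ On (fun _ => P) := by rw [eP]; infer_instance
  have hQP : Q ⊆ P := fun z hz => (mP z).2 ⟨(mem_vC_ord go).2 ((rank_lt_of_mem hz).trans
    (by simpa only [Ordinal.rank_toZFSet] using rank_lt_of_mem g2)), e1 z hz⟩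
  have key : ∀ x ∈ P, (⋃₀ (P.sep fun z => e z = e x) : ZFSet.{u}) = x := fun x hx => by
    have : (P.sep fun z => e z = e x) = {x} := by
      ext z; rw [mem_sep, mem_singleton]
      exact ⟨fun h => e2 z x ((mP z).1 h.1).2 h.2, fun e => by rw [e]; exact ⟨hx, rfl⟩⟩
    rw [this, sUnion_singleton]
  have val : ∀ i, (⋃₀ (P.sep fun z => e z = i) : ZFSet.{u}) ∈ P := fun i => by
    by_cases h : ∃ x ∈ P, e x = i
    · obtain ⟨x, hx, rfl⟩ := h
      rwa [key x hx]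
    · have : (⋃₀ (P.sep fun z => e z = i) : ZFSet.{u}) = ∅ := (eq_empty _).2 fun z hz => by
        obtain ⟨y, hy, -⟩ := mem_sUnion.1 hz
        exact h ⟨y, mem_sep.1 hy⟩
      rw [this]
      exact hQP (ho empty_mem_om)
  refine ⟨P, mem_vonNeumann.2 ((rank_le_iff.2 fun z hz => (mem_vC_ord go).1
    ((mP z).1 hz).1).trans_lt (rank_lt_of_mem g1)), hQP, fun y hy z hz => ?_,
    gr (fun i => ⋃₀ (P.sep fun z => e z = i)) n,
    hod_grA (hod_ord hn) _ fun i _ => e3 _ ((mP _).1 (val i)).2, isFunc_gr fun i _ => val i,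
    fun x hx => ⟨e x, pair_mem_gr.2 ⟨((mP x).1 hx).2, key x hx⟩⟩⟩
  obtain ⟨y1, y2⟩ := (mP y).1 hy
  obtain ⟨z1, z2⟩ := (mP z).1 hz
  refine (mP _).2 ⟨(pair_vC go fun b hb => (g3 b hb).imp fun _ h => ⟨h.1, h.2.1⟩).2 ⟨y1, z1⟩, ?_⟩
  by_cases h : pair y z ∈ Q
  · exact e1 _ h
  · rw [h2 y z h y2 z2]
    exact r1 _ (n0 1) _ (r1 _ y2 _ z2)

theorem closeL {t a Q : ZFSet.{u}} {k : Cardinal.{u}} (ht : Unc t) (ha : a.IsOrdinal)
    (ho : om ⊆ Q) (q1 : Q ∈ vonNeumann t.rank) (h : FewL k a Q) :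
    ∃ P ∈ vonNeumann t.rank, Q ⊆ P ∧ (∀ y ∈ P, ∀ z ∈ P, pair y z ∈ P) ∧ FewL k a P := by
  obtain ⟨n, f, hn, f0, f1, f2, f3⟩ := h
  have hX := hod_prod (hod_Lev ha) (hod_ord (C := Set.univ) hn)
  obtain ⟨e, e0, e1, e2⟩ := od_enum hX.self fun x hx => (hX.mem hx).self
  have := Tm.one (C := Set.univ) (A := On) e
  have := hod_tm hX
  have := hod_tm f0
  have key : ∀ x ∈ prod (Lev a) n,
      (⋃₀ ((prod (Lev a) n).sep fun z => e z = e x) : ZFSet.{u}) = x := fun x hx => by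
    have : ((prod (Lev a) n).sep fun z => e z = e x) = {x} := by
      ext z; rw [mem_sep, mem_singleton]
      exact ⟨fun h => e2 z h.1 x hx h.2, fun e => by rw [e]; exact ⟨hx, rfl⟩⟩
    rw [this, sUnion_singleton]
  obtain ⟨P, p1, p2, p3, F, g0, g1, g2⟩ := close' (n := img e (prod (Lev a) n))
    (f := gr (fun i => app f (⋃₀ ((prod (Lev a) n).sep fun z => e z = i)))
      (img e (prod (Lev a) n))) ht ho q1 e1
    (hod_grA (hod_ord e1) _ fun i hi => by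
      obtain ⟨x, hx, rfl⟩ := mem_img.1 hi
      rw [key x hx]
      exact hod_app f0 f1 hx)
    (isFunc_gr fun i hi => by
      obtain ⟨x, hx, rfl⟩ := mem_img.1 hi
      rw [key x hx]
      exact f1.app_mem' hx)
    fun z hz => by
      obtain ⟨r, hr⟩ := f2 z hz
      have h1 := (pair_mem_prod.1 (f1.1 hr)).1
      exact ⟨e r, pair_mem_gr.2 ⟨mem_img.2 ⟨r, h1, rfl⟩, by rw [key r h1, f1.app_eq hr]⟩⟩
  have := hod_tm g0
  refine ⟨P, p1, p2, p3, n, gr (fun x => app F (e x)) (prod (Lev a) n), hn,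
    hod_grA hX _ fun x hx => hod_app g0 g1 (mem_img.2 ⟨x, hx, rfl⟩),
    isFunc_gr fun x hx => g1.app_mem' (mem_img.2 ⟨x, hx, rfl⟩), fun z hz => ?_, f3⟩
  obtain ⟨r, hr⟩ := g2 z hz
  obtain ⟨x, hx, rfl⟩ := mem_img.1 (pair_mem_prod.1 (g1.1 hr)).1
  exact ⟨x, pair_mem_gr.2 ⟨hx, g1.app_eq hr⟩⟩

end Pool.Agent.MP_ecfd11_lc.H46N
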