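import Pool.Agent.MP_ecfd11_lc.H13N.Main
import Pool.Agent.MP_ecfd11_lc.H46N.Close

/-!
The dichotomy for images of the next level.
-/

set_option synthInstance.maxSize 4000

namespace Pool.Agent.MP_ecfd11_lc.H46N

open Pool.Agent.MP_ecfd11_lc.H20 Pool.Agent.MP_ecfd11_lc.H13X Pool.Agent.MP_ecfd11_lc.H3U
  Pool.Agent.MP_ecfd11_lc.H3E Pool.Agent.MP_ecfd11_lc.H65S Pool.Agent.MP_ecfd11_lc.H46M
  Pool.Agent.MP_ecfd11_lc.H3G Pool.Agent.MP_ecfd11_lc.H65D Pool.Agent.MP_ecfd11_lc.H3H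
  Pool.Agent.MP_ecfd11_lc.H13N

universe u

open ZFSet Cardinal Function Filter

variable {g t a X Y : ZFSet.{u}} {B : ZFSet.{u} → ZFSet.{u}}

/-- The triples `(f, A, s)` with `f (X ∩ A, s) ∈ Y`. -/
noncomputable def DD (L X Y : ZFSet.{u}) : ZFSet.{u} :=
  (low L).sep fun p => ∃ f, ∃ A, ∃ s, p = pair f (pair A s) ∧ app f (pair (X ∩ A) s) ∈ Y

theorem dd_lev (ht : t.IsOrdinal) (hX : HOD Set.univ X) (hY : HOD Set.univ Y) :
    DD t X Y ∈ Lev t := by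
  have := hod_tm hX
  have := hod_tm hY
  have := tm_low ht
  have h := (mem_Lev ht).1 (low_lev ht)
  exact (mem_Lev ht).2 ⟨fun z hz => h.1 (mem_sep.1 hz).1, hod_sub h.2 sep_subset
    (od_iff.2 (by unfold DD; infer_instance))⟩

theorem dd_trace (ht : t.IsOrdinal) (ha : a.IsOrdinal) (la : ∀ b ∈ a, ∃ c ∈ a, b ∈ c)
    (hs : a ⊆ t) :
    DD t X Y ∩ vC Set.univ a = DD a (X ∩ vC Set.univ a) (Y ∩ vC Set.univ a) := by
  have key : ∀ f A s, pair f (pair A s) ∈ low a → (app f (pair (X ∩ A) s) ∈ Y ↔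
      app f (pair (X ∩ vC Set.univ a ∩ A) s) ∈ Y ∩ vC Set.univ a) := fun f A s h => by
    have h1 := (pair_vC ha la).1 (mem_sep.1 h).1
    have h2 := (mem_vC_ord ha).1 ((pair_vC ha la).1 h1.2).1
    have h3 : f ∈ low a := (mem_low ha).2 ⟨(mem_vC_ord ha).1 h1.1,
      hod_fst ((mem_Lev ha).1 (low_lev ha)).2 h⟩
    have e : X ∩ vC Set.univ a ∩ A = X ∩ A := ZFSet.ext fun z => by
      simp only [mem_inter]
      exact ⟨fun h => ⟨h.1.1, h.2⟩, fun h =>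
        ⟨⟨h.1, (mem_vC_ord ha).2 ((rank_lt_of_mem h.2).trans h2)⟩, h.2⟩⟩
    rw [e, mem_inter, and_iff_left (reflectK_app ha h3)]
  refine ZFSet.ext fun p => ⟨fun h => ?_, fun h => ?_⟩
  · obtain ⟨h1, h2⟩ := mem_inter.1 h
    obtain ⟨h3, f, A, s, rfl, h4⟩ := mem_sep.1 h1
    have h5 : pair f (pair A s) ∈ low a := mem_sep.2 ⟨h2, (mem_sep.1 h3).2⟩
    exact mem_sep.2 ⟨h5, f, A, s, rfl, (key f A s h5).1 h4⟩
  · obtain ⟨h3, f, A, s, rfl, h4⟩ := mem_sep.1 h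
    exact mem_inter.2 ⟨mem_sep.2 ⟨mem_sep.2 ⟨vC_mono ha ht hs (mem_sep.1 h3).1,
      (mem_sep.1 h3).2⟩, f, A, s, rfl, (key f A s h3).2 h4⟩, (mem_sep.1 h3).1⟩

theorem onto (ht : Regular Set.univ t) (h : ∀ᶠ L in cf t (unc_of_regular ht), Good t B L)
    {A : ZFSet.{u}} (hA : A ∈ Lev t) : ∃ w ∈ t, A = B w ∩ vC Set.univ t := by
  have hu := unc_of_regular ht
  have := nb hu
  obtain ⟨e, e1, e2⟩ := fr_press (S := t) hu
    (p := fun x L => A ∩ vC Set.univ L = B x ∩ vC Set.univ L)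
    (h.mono fun L hL => hL.tr _ (inter_Lev ht.1 hA hL.ord)).frequently
  obtain ⟨w, w1, w2⟩ : ∃ w ∈ e, ∃ᶠ L in cf t hu, A ∩ vC Set.univ L = B w ∩ vC Set.univ L := by
    by_contra h0
    simp only [not_exists, not_and, not_frequently] at h0
    obtain ⟨L, ⟨x, x1, x2⟩, h1⟩ := (e2.and_eventually (ev_ball ht (ht.card_lt e1) h0)).exists
    exact h1 x x1 x2
  have key : ∀ z ∈ vC Set.univ t, z ∈ A ↔ z ∈ B w := fun z hz => by
    obtain ⟨c, c1, c2⟩ := exists_level ht.1 (fun b hb => hu.succ hb) ((mem_vC_ord ht.1).1 hz)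
    obtain ⟨L, l1, l2, l3⟩ := (w2.and_eventually ((ev_above hu c1).and (ev_mem hu))).exists
    have l4 : z ∈ vC Set.univ L := (mem_vC_ord (ht.1.mem l3.2)).2 (c2.trans (rank_lt_of_mem l2))
    have l5 : z ∈ A ∩ vC Set.univ L ↔ z ∈ B w ∩ vC Set.univ L := by rw [l1]
    simpa only [mem_inter, and_iff_left l4] using l5
  refine ⟨w, ht.1.mem_trans w1 e1, ZFSet.ext fun z => ?_⟩
  rw [mem_inter]
  exact ⟨fun hz => ⟨(key z (((mem_Lev ht.1).1 hA).1 hz)).1 hz, ((mem_Lev ht.1).1 hA).1 hz⟩,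
    fun hz => (key z hz.2).2 hz.1⟩

theorem ev_dd (ht : Regular Set.univ t) (h : ∀ᶠ L in cf t (unc_of_regular ht), Good t B L) :
    ∀ᶠ a in cf t (unc_of_regular ht), ∀ w ∈ a, ∀ w' ∈ a, ∃ z ∈ a,
      DD t (B w) (B w') = B z ∩ vC Set.univ t := by
  have hu := unc_of_regular ht
  have := nb hu
  have h1 : ∀ w ∈ t, HOD Set.univ (B w) := fun w hw => by
    obtain ⟨L, l1, l2⟩ := (h.and (ev_above hu hw)).exists
    exact l1.hod w l2
  refine ev_diag ht fun w hw => ev_diag ht fun w' hw' => ?_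
  obtain ⟨z, z1, z2⟩ := onto ht h (dd_lev ht.1 (h1 w hw) (h1 w' hw'))
  exact (ev_above hu z1).mono fun a ha => ⟨z, ha, z2⟩

theorem prod_t (ht : Unc t) (hX : X ∈ vC Set.univ t) (hY : Y ∈ vC Set.univ t) :
    prod X Y ∈ vC Set.univ t := by
  have la : ∀ b ∈ t, ∃ c ∈ t, b ∈ c := fun b h => ht.succ h
  have h1 : rank (pair X Y) < rank t := (mem_vC_ord ht.1).1 ((pair_vC ht.1 la).2 ⟨hX, hY⟩)
  refine (mem_vC_ord ht.1).2
    (lt_of_le_of_lt (rank_le_iff.2 fun z hz => ?_) (succ_lt ht.1 la h1))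
  obtain ⟨x, hx, y, hy, rfl⟩ := mem_prod.1 hz
  have h2 := (rank_lt_of_mem hx).le
  have h3 := (rank_lt_of_mem hy).le
  refine Order.lt_add_one_iff.2 ?_
  simp only [pair, rank_insert, rank_singleton]
  gcongr

theorem extL {P : ZFSet.{u}} {j : ZFSet.{u} → ZFSet.{u}} (hg : ℵ₀ ≤ card g)
    (go : g.IsOrdinal) (ht : Regular Set.univ t) (hat : a ∈ t)
    (h : Good t B a) (hb : BdK g a) (hc : BdK g (card a).ord.toZFSet) (hs : SL a)
    (hr : RealN g t B a)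
    (sm : StronglyMeasurable Set.univ (succCard a)) (h0 : H46M.Cof (card g) a)
    (hD : ∀ w ∈ a, ∀ w' ∈ a, ∃ z ∈ a, DD t (B w) (B w') = B z ∩ vC Set.univ t)
    (hj : ∀ x ∈ a, j (B x ∩ vC Set.univ a) = B x)
    (hP : P ∈ vonNeumann t.rank) (p0 : ∃ z, z ∈ P) (p1 : FewL (card g) a P) :
    HOD Set.univ P ∧
      ∃ E, HOD Set.univ E ∧ ∀ y z, pair y z ∈ E ↔ y ∈ Lev a ∧ z ∈ P ∧ z ∈ j y := by
  have ao := h.ord
  have hu := unc_of_regular ht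
  have la : ∀ b ∈ t, ∃ c ∈ t, b ∈ c := fun b h => hu.succ h
  have ga : card g ≤ card a := by
    by_contra h
    obtain ⟨b, b1, b2⟩ := hb a subset_rfl (not_le.1 h).le
    exact mem_irrefl b (b2 b b1)
  obtain ⟨n, f, hn, f0, f1, f2, f3⟩ := p1
  have hX := hod_prod (hod_Lev ao) (hod_ord (C := Set.univ) hn)
  have tf := hod_tm f0
  have tn : Tm Set.univ On (fun _ => n) := Tm.ofOrd hn
  have ta := tm_low ao
  have tl := hod_tm (hod_Lev ao)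
  have q0 : HOD Set.univ P := by
    have e : P = img (app f) (prod (Lev a) n) := ZFSet.ext fun z => ⟨fun hz => by
      obtain ⟨r, hr⟩ := f2 z hz
      exact mem_img.2 ⟨r, (pair_mem_prod.1 (f1.1 hr)).1, f1.app_eq hr⟩, fun hz => by
      obtain ⟨r, hr, rfl⟩ := mem_img.1 hz
      exact f1.app_mem' hr⟩
    rw [e]
    exact hod_img hX.self _ fun i hi => hod_app f0 f1 hi
  have tP := hod_tm q0
  have nt : n ∈ t := ht.mem_of_card_lt hn ((small ga sm ao hn f3).trans_lt (ht.card_lt hat))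
  have nv := H3E.mem_vC ht.1 nt
  have ar : rank a + 1 < rank t := succ_lt ht.1 la (rank_lt_of_mem hat)
  have lv : Lev a ∈ vC Set.univ t := (mem_vC_ord ht.1).2 (lt_of_le_of_lt
    (rank_le_iff.2 fun z hz => mem_vonNeumann.1 (mem_sep.1 hz).1) ar)
  have wv : low a ∈ vC Set.univ t := (mem_vC_ord ht.1).2
    ((rank_lt_of_mem (low_lev ao)).trans ((mem_vC_ord ht.1).1 lv))
  have fv : f ∈ vC Set.univ t := (mem_vC_ord ht.1).2 ((rank_mono f1.1).trans_lt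
    ((mem_vC_ord ht.1).1 (prod_t hu (prod_t hu lv nv)
      ((mem_vC_ord ht.1).2 (mem_vonNeumann.1 hP)))))
  have w0 := ((mem_Lev ao).1 (low_lev ao)).2
  have s0 : ∀ r ∈ n, HOD Set.univ (pair f (pair (low a) r)) := fun r hr =>
    hod_pair f0 (hod_pair w0 (hod_ord (hn.mem hr)))
  have sv : ∀ x ∈ vC Set.univ t, ({x} : ZFSet.{u}) ∈ vC Set.univ t := fun x hx =>
    (mem_vC_ord ht.1).2 (by
      rw [rank_singleton]
      exact succ_lt ht.1 la ((mem_vC_ord ht.1).1 hx))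
  obtain ⟨z0, hz0⟩ := p0
  obtain ⟨r0, hr0⟩ := f2 z0 hz0
  obtain ⟨x0, -, r1, hr1, -⟩ := mem_prod.1 (pair_mem_prod.1 (f1.1 hr0)).1
  obtain ⟨m, G, g0, g1, g2, g3⟩ := extN (Q := img (fun r => pair f (pair (low a) r)) n) hg go ht
    hat h hb hc hs hr sm h0
    (mem_vonNeumann.2 ((rank_mono fun z hz => by
      obtain ⟨r, hr, rfl⟩ := mem_img.1 hz
      exact pair_mem_prod.2 ⟨mem_singleton.2 rfl, pair_mem_prod.2 ⟨mem_singleton.2 rfl, hr⟩⟩).trans_lt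
      ((mem_vC_ord ht.1).1 (prod_t hu (sv f fv) (prod_t hu (sv _ wv) nv)))))
    ⟨_, mem_img.2 ⟨r1, hr1, rfl⟩⟩
    ⟨n, gr (fun r => pair f (pair (low a) r)) n, hn, hod_grA (hod_ord hn) _ s0,
      isFunc_gr fun r hr => mem_img.2 ⟨r, hr, rfl⟩, fun z hz => by
        obtain ⟨r, hr, rfl⟩ := mem_img.1 hz
        exact ⟨r, pair_mem_gr.2 ⟨hr, rfl⟩⟩, f3⟩
  have tG := hod_tm g0
  have tE := hod_tm g3
  have key : ∀ x ∈ Lev a, ∀ y ∈ Lev a, ∀ r ∈ n, ∀ i, pair i (pair f (pair (low a) r)) ∈ G →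
      (pair (DD a x y) i ∈ ExQ B a m G ↔ app f (pair x r) ∈ j y) := fun x hx y hy r hr i hi => by
    obtain ⟨w, hw, rfl⟩ := h.tr x hx
    obtain ⟨w', hw', rfl⟩ := h.tr y hy
    obtain ⟨z, hz, e⟩ := hD w hw w' hw'
    have e1 : DD a (B w ∩ vC Set.univ a) (B w' ∩ vC Set.univ a) = B z ∩ vC Set.univ a := by
      rw [← dd_trace ht.1 ao h.lim h.sub, e, inter_inter (vC_mono ao ht.1 h.sub)]
    have e2 : B w ∩ low a = B w ∩ vC Set.univ a := ZFSet.ext fun s => by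
      simp only [mem_inter]
      exact and_congr_right fun h1 => ⟨fun h2 => (mem_sep.1 h2).1,
        fun h2 => mem_sep.2 ⟨h2, (h.hod w hw).mem h1⟩⟩
    have e3 : pair f (pair (low a) r) ∈ vC Set.univ t := (pair_vC ht.1 la).2
      ⟨fv, (pair_vC ht.1 la).2 ⟨wv, H3E.mem_vC ht.1 (ht.1.mem_trans hr nt)⟩⟩
    have e4 : pair f (pair (low a) r) ∈ B z ↔
        app f (pair (B w ∩ vC Set.univ a) r) ∈ B w' := by
      rw [← and_iff_left (a := _ ∈ B z) e3, ← mem_inter, ← e, ← e2]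
      refine ⟨fun h1 => ?_, fun h1 =>
        mem_sep.2 ⟨mem_sep.2 ⟨e3, s0 r hr⟩, f, low a, r, rfl, h1⟩⟩
      obtain ⟨-, f', A, s, h2, h3⟩ := mem_sep.1 h1
      obtain ⟨rfl, h4⟩ := pair_inj.1 h2
      obtain ⟨rfl, rfl⟩ := pair_inj.1 h4
      exact h3
    rw [hj w' hw', mem_ExQ, g1.app_eq hi, ← e4]
    refine ⟨fun ⟨_, _, z', hz', h1, h2⟩ => ?_, fun h1 => ⟨dd_lev ao ((mem_Lev ao).1 hx).2
      ((mem_Lev ao).1 hy).2, (pair_mem_prod.1 (g1.1 hi)).1, z, hz, e1, h1⟩⟩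
    rwa [h.s0 z' hz' z hz (h1.symm.trans e1)] at h2
  refine ⟨q0, (prod (Lev a) P).sep fun q => ∃ x, x ∈ Lev a ∧ ∃ r, r ∈ n ∧
    app f (pair x r) = snd q ∧ ∃ i, pair i (pair f (pair (low a) r)) ∈ G ∧
      pair (DD a x (fst q)) i ∈ ExQ B a m G, hod_sub (hod_prod (hod_Lev ao) q0) sep_subset
      (od_iff.2 (by
        generalize ExQ B a m G = E at tE
        unfold DD
        infer_instance)), fun y z => ?_⟩
  rw [mem_sep, pair_mem_prod, fst_pair, snd_pair, and_assoc]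
  refine and_congr_right fun hy => and_congr_right fun hz => ⟨?_, fun h1 => ?_⟩
  · rintro ⟨x, hx, r, hr, rfl, i, hi, h1⟩
    exact (key x hx y hy r hr i hi).1 h1
  · obtain ⟨p, hp⟩ := f2 z hz
    obtain ⟨x, hx, r, hr, rfl⟩ := mem_prod.1 (pair_mem_prod.1 (f1.1 hp)).1
    obtain ⟨i, hi⟩ := g2 _ (mem_img.2 ⟨r, hr, rfl⟩)
    exact ⟨x, hx, r, hr, f1.app_eq hp, i, hi,
      (key x hx y hy r hr i hi).2 ((f1.app_eq hp).symm ▸ h1)⟩

theorem mainL {d x t : ZFSet.{u}} {k : Cardinal.{u}} (hd : StronglyCompact d t) (hdt : d ∈ t)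
    (hx : x ∈ t) (hp : 2 ^ card (d ∪ x) < card t) (ht : Regular Set.univ t) (hk : ℵ₀ ≤ k)
    (hw : ∀ e ∈ t, card e ^ k < card t)
    (hs : ∀ l, x ∈ l → l ⊆ succCard t → Regular Set.univ l → StronglyMeasurable Set.univ l) :
    ∃ th, HODSucc t th ∧ (SupHOD t th ∨ CofOmega Set.univ th ∧
    ∃ c, Club t c ∧ ∀ a ∈ c, (card a).IsStrongLimit →
      ¬ Regular Set.univ (card a).ord.toZFSet →
      (∀ y, y ⊆ a → card y ≤ k → ∃ b ∈ a, ∀ z ∈ y, z ∈ b) →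
      ∀ Q, Q ∈ vonNeumann t.rank → Q.IsTransitive → a ∈ Q → FewL k a Q →
        ∃ (M : Set ZFSet.{u}) (i : ZFSet.{u} → ZFSet.{u}), Internal M i ∧ (∀ y ∈ a, i y = y) ∧
          ∀ z ∈ Q, z ∈ M ∧ (z.IsOrdinal → z ∈ i a)) := by
  obtain ⟨g, go, rfl⟩ : ∃ g : ZFSet.{u}, g.IsOrdinal ∧ card g = k :=
    ⟨_, isOrdinal_toZFSet _, card_ord' k⟩
  have hu := unc_of_regular ht
  have hw' : ∀ e ∈ t, card e ^ ℵ₀ < card t := fun e he => by
    by_cases h2 : card e = 0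
    · rw [h2]
      exact (zero_power_le _).trans_lt (one_lt_aleph0.trans ht.aleph0_lt)
    · exact (power_le_power_left h2 hk).trans_lt (hw e he)
  have h5 : ∀ a : ZFSet.{u}, a.IsOrdinal → a ∈ succCard a := fun a ha =>
    mem_succCard.2 ⟨ha, le_rfl⟩
  have h6 : ∀ a : ZFSet.{u}, a.IsOrdinal → x ∈ a → a ⊆ t → ℵ₀ ≤ card a →
      StronglyMeasurable Set.univ (succCard a) := fun a ha h1 h2 h3 =>
    hs _ ((succCard_ord a).mem_trans h1 (h5 a ha)) (fun z hz => mem_succCard.2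
      ⟨(mem_succCard.1 hz).1, (mem_succCard.1 hz).2.trans (card_mono h2)⟩) (regular_succCard h3)
  have hst := hs t hx ((succCard_ord t).subset_of_mem (h5 t ht.1)) ht
  have hL := card_Lev (h6 t ht.1 hx subset_rfl ht.aleph0_lt.le) (h5 t ht.1)
  obtain ⟨th, t0, t1, t2, t3⟩ := exists_th ht.1
  have hth : Th t th := ⟨t0, t1, t2⟩
  refine ⟨th, hth.succ ht.1, ?_⟩
  by_cases hn : Unc th
  · exact Or.inl (supA hd hdt hx hp ht hs hth (t3.trans hL) hn)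
  refine Or.inr ⟨hth.cofOmega ht.1 (ht.1.subset_of_mem ht.2.1) hn, ?_⟩
  obtain ⟨ee, he⟩ := hth.inj ht.1
  obtain ⟨B, hB⟩ := system2 hd hdt hst hL hw'
  obtain ⟨c, c1, c2⟩ := (ev_iff hu).1 (hB.and ((realN hk ht hw (hB.mono fun _ h => h.1)).and
    ((ev_above hu hx).and ((link ht hth he hn (hB.mono fun _ h => h.1)).and ((ev_bdk hk ht hw).and
      (ev_dd ht (hB.mono fun _ h => h.1)))))))
  refine ⟨c, c1, fun a ha a1 a2 a3 Q q1 q2 q3 q5 => ?_⟩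
  obtain ⟨⟨G, g1⟩, g2, g3, g4, g5, g6⟩ := not_not.1 fun h => c2 a (mem_sep.2 ⟨c1.1 ha, h⟩) ha
  have ao := G.ord
  have au := BdK.unc a3 hk ao
  have sl := sl_of a1 a2 au
  have hc : H46M.Cof (card g) a := by
    obtain ⟨n, m0, m1, m2, -⟩ := exists_th ao
    obtain ⟨y, y1, y2⟩ := g4 n ⟨m0, m1, m2⟩
    exact (cof_iff ao m0 m1 m2).2 ⟨y, y1.trans hk, y2⟩
  obtain ⟨N, j, -, -, n3, n4, n5, n6⟩ := g1 au
  obtain ⟨P, p1, p2, p3, p4⟩ := closeL hu ao (fun z hz =>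
    q2.mem_trans ((om_subset_iff ao).2 a1.aleph0_le hz) q3) q1 q5
  obtain ⟨q0, E, e0, e1⟩ := extL hk go ht (c1.1 ha) G a3 (g5 a3) sl (g2 a3 (g5 a3) a1)
    (h6 a ao g3 G.sub sl.unc.le) hc g6 n5 p1 ⟨a, p2 q3⟩ p4
  obtain ⟨M, i, e, m1, m2, m3, m4, -⟩ := n6 P E q0
    ((isTransitive_vonNeumann _).subset_of_mem p1) ⟨a, p2 q3⟩ p3 e0 e1
  have m6 := fix_of_elem (fun x hx => (m1.1 x hx).2) m2 q2 fun z hz => m4 z (p2 hz)
  have im : ∀ y : ZFSet.{u}, y.IsOrdinal → i y ∈ M := fun y hy => m1.2.1.1 y (hod_ord hy)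
  refine ⟨M, i, m1, fun y hy => ?_, fun z hz => ⟨(m6 z hz).1, fun zo => ?_⟩⟩
  · obtain ⟨h1, h2⟩ := m6 y (q2.mem_trans hy q3)
    exact (m2.2 (.eq 0 1) (cons (i y) fun _ => y) fun n => by
      cases n; exacts [im y (ao.mem hy), h1]).2
        (((m3 y (hod_ord (ao.mem hy))).trans (n3 y hy)).trans h2.symm)
  · obtain ⟨h1, h2⟩ := m6 z hz
    refine (m2.2 (.mem 0 1) (cons z fun _ => i a) fun n => by
      cases n; exacts [h1, im a ao]).2 ?_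
    change e z ∈ e (i a)
    rw [h2, m3 a (hod_ord ao), n4]
    exact (zo.rank_lt_iff_mem ht.1).1
      (mem_vonNeumann.1 ((isTransitive_vonNeumann _).mem_trans hz q1))

end Pool.Agent.MP_ecfd11_lc.H46N
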